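import Pool.Agent.H9x.SO.Exists

/-!
# A `Π¹₁`-sound, `Π¹₁`-definable extension of `Σ¹₁-AC₀` that proves its own `Π¹₁`-soundness

For every choice `𝒜` of the formulas that express syntax and `Π¹₁` truth (such a choice exists), there
is a true sentence `σ` and a `Π¹₁` formula `τ` which defines the set of axioms of
`T = Σ¹₁-AC₀ + σ`, such that `T` (all of whose theorems are true) proves the `Π¹₁`-reflection sentence
for `τ`.
-/

set_option autoImplicit false

namespace Pool.Agent.Results.MP_51f008_lc.SoundPi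

open Pool.Agent.H9x.SO

theorem result : Nonempty Arithmetization ∧ ∀ 𝒜 : Arithmetization,
    ∃ (T : Set Fm) (σ τ : Fm), σ.Sentence ∧ T = insert σ SigmaAC0 ∧
      τ.IsStrictPi ∧ (∀ x, τ.Free x → x = 2) ∧ (∀ X, ¬ τ.FreeS X) ∧
      (∀ e E, τ.Holds e E ↔ ∃ φ ∈ T, e 2 = φ.code) ∧
      (∀ φ, Provable T φ → φ.True) ∧
      Provable T (𝒜.reflection τ) := by
  refine ⟨nonempty_arithmetization, fun 𝒜 => ?_⟩
  have hT : ∀ φ ∈ insert (logicSound 𝒜) SigmaAC0, φ.True := by
    rintro φ (rfl | h)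
    · exact logicSound_true 𝒜
    · exact sigmaAC0_true h
  obtain ⟨τ₀, h1, h2, h3, h4⟩ := exists_definition (logicSound 𝒜)
  obtain ⟨τ, t1, t2, t3, t4, t5⟩ := main 𝒜 (insert (logicSound 𝒜) SigmaAC0) hT (Or.inl rfl)
    τ₀ h1 h2 h3 h4
  exact ⟨_, logicSound 𝒜, τ, logicSound_sentence 𝒜, rfl, t1, t2, t3, t4,
    fun φ h => Provable.sound hT h, t5⟩

end Pool.Agent.Results.MP_51f008_lc.SoundPi
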